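import Pool.Agent.G02.StmtsR

set_option autoImplicit false

/-!
# Squad G02, row RKL: a point of infinite order
-/

namespace Pool.Agent.G02.H69

open Polynomial Pool.Agent.NJ Pool.Agent.GT.F

theorem one_le_rank {A : Type} [AddCommGroup A] (P : A) (h : ∀ n : ℕ, 0 < n → n • P ≠ 0) :
    1 ≤ Module.rank ℤ A := by
  rw [Cardinal.one_le_iff_ne_zero]
  intro h0
  rw [rank_eq_zero_iff] at h0
  obtain ⟨a, ha, hP⟩ := h0 P
  apply h a.natAbs (Int.natAbs_pos.2 ha)
  rcases Int.natAbs_eq a with h1 | h1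
  · rw [h1, natCast_zsmul] at hP
    exact hP
  · rw [h1, neg_smul, natCast_zsmul, neg_eq_zero] at hP
    exact hP

/-- Row RKL. -/
theorem rkl (sps : SpStmt) : RklStmt := by
  intro i1 i2 E t P hΔ h
  obtain ⟨sp, hsp⟩ := sps E t hΔ
  have hP : ∀ n : ℕ, 0 < n → n • P ≠ 0 := by
    intro n hn h0
    apply h sp hsp n hn
    rw [← map_nsmul, h0, map_zero]
  have hr := one_le_rank P hP
  unfold rk
  have hi : i2 = fun a b => Classical.propDecidable (a = b) := Subsingleton.elim _ _
  rw [hi] at hr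
  exact hr

end Pool.Agent.G02.H69
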