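import Pool.Agent.G02.Stmts

/-!
# Squad G02, row RLA: the symbols in recipe A
-/

set_option autoImplicit false

namespace Pool.Agent.G02.H69

theorem leg_congr (p : ℕ) [Fact p.Prime] (a b : ℤ) (h : (p : ℤ) ∣ a - b) :
    legendreSym p a = legendreSym p b := by
  unfold legendreSym
  congr 1
  exact (ZMod.intCast_eq_intCast_iff_dvd_sub a b p).mpr (by
    have := (dvd_neg.mpr h); rwa [neg_sub] at this)

theorem leg_two (p : ℕ) [Fact p.Prime] (h : p % 8 = 3) : legendreSym p 2 = -1 := by
  have hp2 : p ≠ 2 := by omega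
  rw [legendreSym.at_two hp2, ZMod.χ₈_nat_eq_if_mod_eight]
  simp [h]
  omega

theorem leg_neg_one (p : ℕ) [Fact p.Prime] (h : p % 8 = 3) : legendreSym p (-1) = -1 := by
  have hp2 : p ≠ 2 := by omega
  rw [legendreSym.at_neg_one hp2]
  exact ZMod.χ₄_nat_three_mod_four (by omega)

theorem not_dvd (p q : ℕ) (hp : p.Prime) (hq : q.Prime) (h : p ≠ q) : ¬ (p : ℤ) ∣ (q : ℤ) := by
  intro hd
  have := Int.natCast_dvd_natCast.mp hd
  exact h ((Nat.prime_dvd_prime_iff_eq hp hq).mp this)

theorem rla : RlaStmt := by
  intro k p q r _ _ _ h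
  have hp8 := h.mp
  have hq8 := h.mq
  have hr := h.hr
  have hr8 : r % 8 = 3 := by omega
  have hpp := h.pp
  have hqp := h.pq
  have hrp := h.pr
  have hpq : p ≠ q := h.ne
  have hpr : p ≠ r := by
    intro e; apply hpq; rw [← e] at hr; omega
  have hqr : q ≠ r := by
    intro e; apply hpq; rw [← e] at hr; omega
  refine ⟨hr8, legendreSym p q, ?_⟩
  have hs : legendreSym p q = 1 ∨ legendreSym p q = -1 := by
    apply legendreSym.eq_one_or_neg_one
    rw [Ne, ZMod.intCast_zmod_eq_zero_iff_dvd]
    exact not_dvd p q hpp hqp hpq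
  have hpR : legendreSym p r = - legendreSym p q := by
    rw [leg_congr p r (2 * q) (by rw [hr]; exact ⟨-1, by ring⟩), legendreSym.mul, leg_two p hp8]
    ring
  have hqP : legendreSym q p = - legendreSym p q :=
    legendreSym.quadratic_reciprocity_three_mod_four (by omega) (by omega)
  have hqR : legendreSym q r = legendreSym p q := by
    rw [leg_congr q r (-1 * p) (by rw [hr]; exact ⟨2, by ring⟩), legendreSym.mul,
      leg_neg_one q hq8, hqP]
    ring
  have hrP : legendreSym r p = legendreSym p q := by
    have := legendreSym.quadratic_reciprocity_three_mod_four (p := p) (q := r) (by omega) (by omega)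
    rw [this, hpR]; ring
  have hrQ : legendreSym r q = - legendreSym p q := by
    have := legendreSym.quadratic_reciprocity_three_mod_four (p := q) (q := r) (by omega) (by omega)
    rw [this, hqR]
  refine ⟨by omega, by omega, by omega, hpq, hpr, hqr, ?_, ?_, ?_, rfl, hpR, hqP, hqR, hrP, hrQ, hs⟩
  · intro hd
    have := (h.leg p (by omega) hd).1
    have h0 : legendreSym p (2 * p * q) = 0 := by
      rw [legendreSym.eq_zero_iff, ZMod.intCast_zmod_eq_zero_iff_dvd]
      exact ⟨2 * q, by ring⟩
    rw [h0] at this; exact absurd this (by norm_num)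
  · intro hd
    have := (h.leg q (by omega) hd).1
    have h0 : legendreSym q (2 * p * q) = 0 := by
      rw [legendreSym.eq_zero_iff, ZMod.intCast_zmod_eq_zero_iff_dvd]
      exact ⟨2 * p, by ring⟩
    rw [h0] at this; exact absurd this (by norm_num)
  · intro hd
    have := (h.leg r (by omega) hd).2
    have h0 : legendreSym r (-(p * r)) = 0 := by
      rw [legendreSym.eq_zero_iff, ZMod.intCast_zmod_eq_zero_iff_dvd]
      exact ⟨-p, by ring⟩
    rw [h0] at this; exact absurd this (by norm_num)

end Pool.Agent.G02.H69
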